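import Pool.Agent.helper36.PP.SpecM

/-!
# pp:INQ2, the inequality for the pairing with a pair of forms
-/

set_option autoImplicit false

open Complex Metric Set Filter Topology MeasureTheory MPS MQ Pool.Agent.helper98.ILF

noncomputable section

namespace PPS

/-- INQ2. -/
theorem INQ2 (hRADI : RADI_stmt) (hSD1 : SD1_stmt) (hSD2 : SD2_stmt) (hPAIR2 : PAIR2_stmt)
    (hLIM2 : LIM2_stmt) : INQ2_stmt := by
  intro k _ f b g A δ μ β hn hb hμ hδ0 hβ hβ2 hρ hg
  obtain ⟨r, hr, hr1, hr2⟩ := hRADI k f b hb hρ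
  set Λ : ℝ := Real.log ‖rho f b‖ with hΛ
  have hΛ0 : 0 ≤ Λ := Real.log_nonneg hρ
  have hn1 : 1 ≤ f.natDegree := le_trans (by norm_num) hn
  refine le_of_forall_pos_le_add fun ε hε => ?_
  have hδ : 0 < ε / 2 := half_pos hε
  have h1 := hSD1 k f b g r hn1 hb hr hr1 (ε / 2) hδ
  have h2 := hSD2 k f b g r A hn1 hb hr hr1 (ε / 2) hδ
  have h3 := (hLIM2 k f b g A μ β r hn hb hμ hr hg).2.norm
  have h0 : ∀ᶠ s : ℝ in 𝓝[>] 0, ∀ i, s * r i ≤ δ := by
    rw [eventually_all]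
    intro i
    have hc : Tendsto (fun s : ℝ => s * r i) (𝓝[>] 0) (𝓝 (0 * r i)) :=
      ((continuous_id.mul continuous_const).tendsto 0).mono_left nhdsWithin_le_nhds
    rw [zero_mul] at hc
    filter_upwards [hc.eventually (gt_mem_nhds hδ0)] with s hs
    exact hs.le
  refine le_of_tendsto h3 ?_
  filter_upwards [h0, h1, h2, self_mem_nhdsWithin] with s hs3 hs1 hs2 hs
  have hs0 : (0 : ℝ) < s := hs
  have h4 := hPAIR2 k f b g A μ β (fun i => s * r i) hn1 hb hμ (fun i => mul_pos hs0 (hr i))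
    (fun i z hz => (hs3 i).trans (hβ i z hz)) hβ2
  have h5 := h4.trans (add_le_add hs1 hs2)
  rw [hr2, ← ENNReal.ofReal_add (by positivity) hδ.le] at h5
  have h6 := (ENNReal.ofReal_le_ofReal_iff (by positivity)).1 h5
  linarith

end PPS
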