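import Pool.Agent.helper57.PP.Spec

/-! Row pp:C4: the quadrangle at the corner. -/

set_option autoImplicit false

namespace Pool.Agent.helper57.PP

open Finset

theorem C4 (h1 : HS_stmt) (h2 : DSJ_stmt) (h3 : ISO_stmt) (h4 : ZT_stmt) : C4_stmt := by
  intro W _ G σ m p A x hD hG hH hxA hxp hx1 hx2
  have _ := h4
  obtain ⟨-, -, -, -, -, hs6, hs7⟩ := h1 W G σ m p A hD hG hH
  obtain ⟨-, iso2, iso3, -, -, -⟩ := h3 W G σ m p hD hG
  have hm := hG.m3
  obtain ⟨hJ, -⟩ := h2 W G σ m p A hD hG hH
  have e01 : ({p 0, p 1} : Finset W) ∈ edges A := (hs6 0).2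
  have e1x : ({p 1, x} : Finset W) ∈ edges A := edges_comm (hs7 x hxA hxp _ hx1)
  have ex2 : ({x, p (2 * m - 1)} : Finset W) ∈ edges A := hs7 x hxA hxp _ hx2
  have e20 : ({p (2 * m - 1), p 0} : Finset W) ∈ edges A := by
    have h := (hs6 (2 * m - 1)).2
    have e1 : 2 * m - 1 + 1 = 0 + 2 * m := by omega
    rw [e1, iso2] at h
    exact h
  have n01 : p 0 ≠ p 1 := fun h => by
    have := iso3 _ (by omega) _ (by omega) h
    omega
  have n02 : p 0 ≠ p (2 * m - 1) := fun h => by
    have := iso3 _ (by omega) _ (by omega) h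
    omega
  have n12 : p 1 ≠ p (2 * m - 1) := fun h => by
    have := iso3 _ (by omega) _ (by omega) h
    omega
  have hnd : (p 0 :: ([p 1, x] ++ [p (2 * m - 1)])).Nodup := by
    simp only [List.cons_append, List.nil_append, List.nodup_cons, List.mem_cons, List.not_mem_nil,
      or_false, not_or, not_false_iff, List.nodup_nil, and_true]
    exact ⟨⟨n01, fun h => hxp 0 h.symm, n02⟩, ⟨fun h => hxp 1 h.symm, n12⟩, hxp _⟩
  have hev := even_cycle hnd (by simp)
  have heq : insert {p 0, p (2 * m - 1)} (pe (p 0 :: ([p 1, x] ++ [p (2 * m - 1)])))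
      = ({{p 0, p 1}, {p 1, x}, {x, p (2 * m - 1)}, {p (2 * m - 1), p 0}} : Finset (Finset W)) := by
    simp only [List.cons_append, List.nil_append, pe_cons_cons, pe_singleton]
    rw [Finset.pair_comm (p 0) (p (2 * m - 1))]
    ext e
    simp only [mem_insert, mem_singleton, notMem_empty, or_false]
    tauto
  rw [heq] at hev
  refine hJ _ ?_ hev
  intro e he
  simp only [mem_insert, mem_singleton] at he
  rcases he with rfl | rfl | rfl | rfl
  · exact e01
  · exact e1x
  · exact ex2
  · exact e20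

end Pool.Agent.helper57.PP
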