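import Pool.Agent.helper57.PP.Spec

/-! Row pp:C6: the number of conflicts at the corner decreases. -/

set_option autoImplicit false

namespace Pool.Agent.helper57.PP

open Finset

theorem C6_invol {W : Type} [DecidableEq W] {σ : W → W} (h : ∀ x, σ (σ x) = x) (t : Finset W) :
    (t.image σ).image σ = t := by
  rw [Finset.image_image]
  have : σ ∘ σ = id := funext h
  rw [this, Finset.image_id]

theorem C6 (h1 : HS_stmt) (h2 : ALN_stmt) (h3 : ISO_stmt) (h4 : ZT_stmt) : C6_stmt := by
  intro W _ G σ m p A x D hD hG hH hxA hxp hx1 hx2 hDA hbd hG' hH'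
  obtain ⟨-, hs2, -, -, -, -, -⟩ := h1 W G σ m p A hD hG hH
  obtain ⟨-, -, hs3', -, -, -, -⟩ := h1 W G σ m (rp σ m p x) _ hD hG' hH'
  obtain ⟨-, iso2, iso3, iso4, -, -⟩ := h3 W G σ m p hD hG
  obtain ⟨-, -, -, -, -, iso6'⟩ := h3 W G σ m (rp σ m p x) hD hG'
  have hm := hG.m3
  obtain ⟨-, -, zt3, -, -, -, -⟩ := h4 W m p hm iso2 iso3
  have hDG : D ⊆ G := hDA.trans hH.sub
  -- values of the new path
  have r0 : rp σ m p x 0 = x := by simp [rp]
  have rm : rp σ m p x m = σ x := by
    have e1 : m % (2 * m) = m := Nat.mod_eq_of_lt (by omega)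
    unfold rp
    rw [e1, if_neg (by omega), if_pos rfl]
  have ri : ∀ i, i < 2 * m → i ≠ 0 → i ≠ m → rp σ m p x i = p i := by
    intro i hi hi0 him
    have e1 : i % (2 * m) = i := Nat.mod_eq_of_lt hi
    unfold rp
    rw [e1, if_neg hi0, if_neg him]
  have r1 : rp σ m p x 1 = p 1 := ri 1 (by omega) (by omega) (by omega)
  have r2 : rp σ m p x (2 * m - 1) = p (2 * m - 1) :=
    ri (2 * m - 1) (by omega) (by omega) (by omega)
  unfold nu
  rw [r1, r2]
  apply Finset.card_lt_card
  rw [Finset.ssubset_iff_of_subset]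
  · refine ⟨x, ?_, ?_⟩
    · rw [mem_filter]
      exact ⟨hxA, fun i _ => hxp i, hx1, hx2⟩
    · rw [mem_filter]
      rintro ⟨-, h, -, -⟩
      exact h 0 (by omega) r0.symm
  · intro y hy
    rw [mem_filter] at hy ⊢
    obtain ⟨hyA', hyp', hy1, hy2⟩ := hy
    have hyx : y ≠ x := by
      have := hyp' 0 (by omega)
      rwa [r0] at this
    have hysx : y ≠ σ x := by
      have := hyp' m (by omega)
      rwa [rm] at this
    have hypi : ∀ i, i < 2 * m → i ≠ 0 → i ≠ m → y ≠ p i := by
      intro i hi hi0 him
      have := hyp' i hi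
      rwa [ri i hi hi0 him] at this
    have hyall : ∀ i, y ≠ rp σ m p x i := by
      intro i
      obtain ⟨j, hj, he⟩ := iso6' i
      rw [he]
      exact hyp' j hj
    -- `y` is not `p 0`
    have hy0 : y ≠ p 0 := by
      rintro rfl
      have hst := hs3' _ hyA' hyall
      have hb : ({p 0, p 1} : Finset W) ∈ bd D := by
        rw [hbd]
        simp
      obtain ⟨-, hodd⟩ := mem_bd.1 hb
      obtain ⟨t, ht⟩ := Finset.card_pos.1 hodd.pos
      obtain ⟨htD, htsub⟩ := mem_cof.1 ht
      have hp0t : p 0 ∈ t := htsub (by simp)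
      have htG : t ∈ cof G {p 0} := mem_cof.2 ⟨hDG htD, by simpa using hp0t⟩
      rw [← hst] at htG
      have htA' := (mem_cof.1 htG).1
      rw [mem_union, mem_sdiff, mem_image] at htA'
      rcases htA' with ⟨-, h⟩ | ⟨t', ht', he⟩
      · exact h htD
      · have hn := (hH.half t (hDG htD)).1 (hDA htD)
        apply hn
        rw [← he, C6_invol hD.invol]
        exact hDA ht'
    -- `y` is not `p m`
    have hym : y ≠ p m := by
      rintro rfl
      have := iso4 1 m (by omega) (by omega) (edges_comm hy1)
      omega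
    have hyp : ∀ i < 2 * m, y ≠ p i := by
      intro i hi
      by_cases hi0 : i = 0
      · rw [hi0]
        exact hy0
      · by_cases him : i = m
        · rw [him]
          exact hym
        · exact hypi i hi hi0 him
    refine ⟨?_, hyp, hy1, hy2⟩
    by_contra hyA
    obtain ⟨t, htA', hyt⟩ := mem_vs.1 hyA'
    rw [mem_union, mem_sdiff, mem_image] at htA'
    rcases htA' with ⟨htA, -⟩ | ⟨t', ht', he⟩
    · exact hyA (mem_vs.2 ⟨t, htA, hyt⟩)
    -- `σ y` is in `t' ∈ D`
    have hsy : σ y ∈ t' := by
      rw [← he, mem_image] at hyt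
      obtain ⟨z, hz, hzy⟩ := hyt
      rw [← hzy, hD.invol]
      exact hz
    have hsyD : σ y ∈ vs D := mem_vs.2 ⟨t', ht', hsy⟩
    have hback : ∀ z, σ y = z → y = σ z := by
      intro z hz
      rw [← hz, hD.invol]
    have n0 : σ y ≠ p 0 := by
      intro h
      have := hback _ h
      rw [← hG.per 0, zero_add] at this
      exact hym this
    have n1 : σ y ≠ p 1 := by
      intro h
      have := hback _ h
      rw [← hG.per 1] at this
      exact hyp (1 + m) (by omega) this
    have n2 : σ y ≠ x := by
      intro h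
      exact hysx (hback _ h)
    have n3 : σ y ≠ p (2 * m - 1) := by
      intro h
      have := hback _ h
      rw [← hG.per (2 * m - 1)] at this
      have e1 : 2 * m - 1 + m = (m - 1) + 2 * m := by omega
      rw [e1, iso2] at this
      exact hyp (m - 1) (by omega) this
    have hstar : cof D {σ y} = cof G {σ y} := by
      apply h2 W G D (σ y) hD.surf hDG hsyD
      intro e hee hse
      rw [hbd] at hee
      simp only [mem_insert, mem_singleton] at hee
      rcases hee with rfl | rfl | rfl | rfl <;> simp only [mem_insert, mem_singleton] at hse <;>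
        rcases hse with hse | hse <;> first
          | exact n0 hse
          | exact n1 hse
          | exact n2 hse
          | exact n3 hse
    -- `p (m + 1)` is in `vs D`
    obtain ⟨-, τ, hτG, hτ⟩ := mem_edges.1 hy1
    have hτ' : τ.image σ ∈ G := hD.inv τ hτG
    have hy1' : σ y ∈ τ.image σ := mem_image_of_mem σ (hτ (by simp))
    have hpm : p (1 + m) ∈ τ.image σ := by
      rw [hG.per 1]
      exact mem_image_of_mem σ (hτ (by simp))
    have hτD : τ.image σ ∈ D := by
      have : τ.image σ ∈ cof G {σ y} := mem_cof.2 ⟨hτ', by simpa using hy1'⟩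
      rw [← hstar] at this
      exact (mem_cof.1 this).1
    have hpmD : p (1 + m) ∈ vs D := mem_vs.2 ⟨_, hτD, hpm⟩
    have k0 : p (1 + m) ≠ p 0 := by
      intro h
      have := iso3 _ (by omega) _ (by omega) h
      omega
    have k1 : p (1 + m) ≠ p 1 := by
      intro h
      have := iso3 _ (by omega) _ (by omega) h
      omega
    have k2 : p (1 + m) ≠ x := fun h => hxp _ h.symm
    have k3 : p (1 + m) ≠ p (2 * m - 1) := by
      intro h
      have := iso3 _ (by omega) _ (by omega) h
      omega
    have hstar2 : cof D {p (1 + m)} = cof G {p (1 + m)} := by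
      apply h2 W G D (p (1 + m)) hD.surf hDG hpmD
      intro e hee hse
      rw [hbd] at hee
      simp only [mem_insert, mem_singleton] at hee
      rcases hee with rfl | rfl | rfl | rfl <;> simp only [mem_insert, mem_singleton] at hse <;>
        rcases hse with hse | hse <;> first
          | exact k0 hse
          | exact k1 hse
          | exact k2 hse
          | exact k3 hse
    obtain ⟨c1, c2⟩ := hs2 _ (zt3 (1 + m))
    have hsub : cof G ({p (1 + m), p (1 + m + 1)} : Finset W) ⊆
        cof A ({p (1 + m), p (1 + m + 1)} : Finset W) := by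
      intro s hs
      obtain ⟨hsG, hs'⟩ := mem_cof.1 hs
      have : s ∈ cof G {p (1 + m)} := mem_cof.2 ⟨hsG, by
        rw [singleton_subset_iff]
        exact hs' (by simp)⟩
      rw [← hstar2] at this
      exact mem_cof.2 ⟨hDA (mem_cof.1 this).1, hs'⟩
    have := Finset.card_le_card hsub
    omega

end Pool.Agent.helper57.PP
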