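import Pool.Agent.helper57.PP.Spec

/-! Row pp:DB. -/

set_option autoImplicit false

namespace Pool.Agent.helper57.PP

open Finset

theorem DB_one : (1 : ZMod 2) + 1 = 0 := by decide

theorem DB_ne (g : ZMod 2) : g + 1 ≠ g := by
  revert g
  decide

theorem DB (h1 : LED_stmt) (h2 : LS_stmt) (h3 : LCN_stmt) (h4 : LCD_stmt) (h5 : LJ_stmt)
    (h6 : NIV_stmt) (h7 : WX_stmt) : DB_stmt := by
  intro V _ _ F hF hconn hne hcard
  obtain ⟨w, hw, hS⟩ := h7 V F hF hconn hne hcard
  have hsurf := h2 V F w hF hw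
  have hcn := h3 V F w hF hw hconn hS
  obtain ⟨hc1, hc2⟩ := h4 V F w hF hw
  obtain ⟨l1, -, l3, -, -⟩ := h1 V F w hF hw
  have hne' : (lift F w).Nonempty := by
    rw [← Finset.card_pos, hc1]
    have := Finset.card_pos.2 hne
    omega
  have hcardW : Fintype.card (V × ZMod 2) + (lift F w).card = (edges (lift F w)).card + 2 := by
    rw [Fintype.card_prod, ZMod.card, hc1, hc2]
    omega
  refine ⟨w, hw, ⟨hsurf, hcn, hne', h5 (V × ZMod 2) (lift F w) hsurf hcn hne' hcardW, ?_, l3, ?_,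
    ?_, ?_, ?_⟩⟩
  · intro x
    show (x.1, x.2 + 1 + 1) = x
    rw [add_assoc, DB_one, add_zero]
  · intro x h
    have := congrArg Prod.snd h
    exact DB_ne x.2 this
  · intro x h
    have := ((l1 x (sg x)).1 h).1
    exact this rfl
  · intro x y h h'
    have e1 := ((l1 x y).1 h).2.2
    have e2 := ((l1 (sg x) y).1 h').2.2
    have e3 : x.2 + 1 + y.2 = x.2 + y.2 := by
      rw [e1]
      exact e2
    have e4 : x.2 + y.2 + 1 = x.2 + 1 + y.2 := by ring
    exact DB_ne _ (e4.trans e3)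
  · intro A hA hinv m p hm hper hinj hed
    exact h6 V F w hF hw A hA hinv m p hm hper hinj hed

end Pool.Agent.helper57.PP
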