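import Pool.Agent.helper57.PP.Spec

/-! Row pp:TQE: the edges of the pointers. -/

set_option autoImplicit false

namespace Pool.Agent.helper57.PP

open Finset

/-- the kind of the edge of `(k, v)`: 0 = left edge, 1 = right edge, 2 = upper edge -/
def TQE_k {V : Type} [DecidableEq V] (Z : Finset V) (k : Fin 3) (v : V) : Fin 3 :=
  if k = 0 then 1 else if k = 1 then (if v ∈ Z then 2 else 0) else (if v ∈ Z then 0 else 2)

/-- the vertex of the edge of `(k, v)` -/
def TQE_x {V : Type} (tp bt : V → V × ZMod 2) (k : Fin 3) (v : V) : V × ZMod 2 :=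
  if k = 1 then bt v else tp v

/-- the edge of kind `c` at `x` -/
def TQE_E {W : Type} [DecidableEq W] (L R U : W → W) (c : Fin 3) (x : W) : Finset W :=
  if c = 0 then {x, L x} else if c = 1 then {x, R x} else {U x, x}

theorem TQE_fin3 (k : Fin 3) : k = 0 ∨ k = 1 ∨ k = 2 := by
  revert k
  decide

theorem TQE_k_inj {V : Type} [DecidableEq V] (Z : Finset V) (k k' : Fin 3) (v : V)
    (h : TQE_k Z k v = TQE_k Z k' v) : k = k' := by
  unfold TQE_k at h
  by_cases hv : v ∈ Z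
  · simp only [hv, if_true] at h
    revert h
    revert k k'
    decide
  · simp only [hv, if_false] at h
    revert h
    revert k k'
    decide

/-- the edge of kind `c` at `x` is an edge of the half, and not a bottom edge -/
theorem TQE_edge {W : Type} [DecidableEq W] {m : ℕ} {p : ℕ → W} {A : Finset (Finset W)}
    {L R U : W → W} {ρ : W → ℚ} {tm : W → ℕ} {c1 c0 : ℕ} (hS : Swp m p A L R U ρ tm c1 c0)
    (c : Fin 3) (x : W) (hx : x ∈ vs A) (h1 : c ≠ 2 → ∀ i ≤ m, x ≠ p i)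
    (h2 : c = 2 → ∀ i, m ≤ i → i ≤ 2 * m → x ≠ p i) :
    TQE_E L R U c x ∈ edges A ∧ ∀ i < m, TQE_E L R U c x ≠ {p i, p (i + 1)} := by
  have key : ∀ (e : Finset W) (y : W), y ∈ e → (∀ i ≤ m, y ≠ p i) →
      ∀ i < m, e ≠ {p i, p (i + 1)} := by
    intro e y hy hyb i hi he
    rw [he, mem_insert, mem_singleton] at hy
    rcases hy with hy | hy
    · exact hyb i (by omega) hy
    · exact hyb (i + 1) (by omega) hy
  rcases TQE_fin3 c with rfl | rfl | rfl
  · have hb := h1 (by decide)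
    exact ⟨(hS.l x hx hb).1, key _ x (by simp [TQE_E]) hb⟩
  · have hb := h1 (by decide)
    exact ⟨(hS.r x hx hb).1, key _ x (by simp [TQE_E]) hb⟩
  · have hb := h2 rfl
    have := hS.u x hx hb
    exact ⟨this.1, key _ (U x) (by simp [TQE_E]) this.2.1⟩

/-- different edges -/
theorem TQE_dist (h5 : DIST_stmt) {W : Type} [DecidableEq W] {m : ℕ} {p : ℕ → W}
    {A : Finset (Finset W)}
    {L R U : W → W} {ρ : W → ℚ} {tm : W → ℕ} {c1 c0 : ℕ} (hS : Swp m p A L R U ρ tm c1 c0)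
    (c c' : Fin 3) (x x' : W) (hx : x ∈ vs A) (hx' : x' ∈ vs A)
    (h1 : c ≠ 2 → ∀ i ≤ m, x ≠ p i)
    (h2 : c = 2 → ∀ i, m ≤ i → i ≤ 2 * m → x ≠ p i)
    (h1' : c' ≠ 2 → ∀ i ≤ m, x' ≠ p i)
    (h2' : c' = 2 → ∀ i, m ≤ i → i ≤ 2 * m → x' ≠ p i)
    (h : TQE_E L R U c x = TQE_E L R U c' x') : c = c' ∧ x = x' := by
  obtain ⟨d1, d2, d3⟩ := h5 W m p A L R U ρ tm c1 c0 hS
  rcases TQE_fin3 c with rfl | rfl | rfl
  · have hb := h1 (by decide)
    rcases TQE_fin3 c' with rfl | rfl | rfl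
    · have hb' := h1' (by decide)
      exact ⟨rfl, (d1 x hx x' hx' hb hb').1 h⟩
    · have hb' := h1' (by decide)
      exact absurd h (d1 x hx x' hx' hb hb').2.2
    · have hb' := h2' rfl
      exact absurd h (d2 x hx x' hx' hb hb').1
  · have hb := h1 (by decide)
    rcases TQE_fin3 c' with rfl | rfl | rfl
    · have hb' := h1' (by decide)
      exact absurd h.symm (d1 x' hx' x hx hb' hb).2.2
    · have hb' := h1' (by decide)
      exact ⟨rfl, (d1 x hx x' hx' hb hb').2.1 h⟩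
    · have hb' := h2' rfl
      exact absurd h (d2 x hx x' hx' hb hb').2
  · have hb := h2 rfl
    rcases TQE_fin3 c' with rfl | rfl | rfl
    · have hb' := h1' (by decide)
      exact absurd h.symm (d2 x' hx' x hx hb' hb).1
    · have hb' := h1' (by decide)
      exact absurd h.symm (d2 x' hx' x hx hb' hb).2
    · have hb' := h2' rfl
      exact ⟨rfl, d3 x hx x' hx' hb hb' h⟩

theorem TQE (h1 : HS_stmt) (h2 : ISO_stmt) (h3 : LED_stmt) (h4 : EIJ_stmt) (h5 : DIST_stmt) :
    TQE_stmt := by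
  intro V _ _ F w m p A L R U ρ tm c1 c0 Z ix tp bt hF hw hD hG hH hS hP
  obtain ⟨-, -, -, -, -, hs6, -⟩ := h1 (V × ZMod 2) (lift F w) sg m p A hD hG hH
  obtain ⟨-, iso2, iso3, -, -, -⟩ := h2 (V × ZMod 2) (lift F w) sg m p hD hG
  obtain ⟨-, -, -, led4, -⟩ := h3 V F w hF hw
  have hm := hG.m3
  -- the top vertices
  have htp : ∀ v, v ≠ (p 0).1 → tp v ∈ vs A ∧ ∀ i ≤ m, tp v ≠ p i := by
    intro v hv
    by_cases hvZ : v ∈ Z
    · obtain ⟨a1, a2, -, a4⟩ := hP.z v hvZ
      rw [a4]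
      refine ⟨(hs6 _).1, fun i hi he => ?_⟩
      have := iso3 (m + ix v) (by omega) i (by omega) he
      omega
    · obtain ⟨-, a2, a3⟩ := hP.i v hv hvZ
      exact ⟨a2, fun i _ => a3 i⟩
  have hbt : ∀ v, v ≠ (p 0).1 → bt v ∈ vs A ∧ ∀ i, m ≤ i → i ≤ 2 * m → bt v ≠ p i := by
    intro v hv
    by_cases hvZ : v ∈ Z
    · obtain ⟨a1, a2, a3, -⟩ := hP.z v hvZ
      rw [a3]
      refine ⟨(hs6 _).1, fun i hi hi2 he => ?_⟩
      rcases Nat.lt_or_ge i (2 * m) with h | h
      · have := iso3 (ix v) (by omega) i h he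
        omega
      · have hi3 : i = 2 * m := by omega
        have h0 := iso2 0
        rw [zero_add] at h0
        rw [hi3, h0] at he
        have := iso3 (ix v) (by omega) 0 (by omega) he
        omega
    · obtain ⟨a1, a2, a3⟩ := hP.i v hv hvZ
      rw [a1]
      exact ⟨a2, fun i _ _ => a3 i⟩
  have hx : ∀ k v, v ≠ (p 0).1 → TQE_x tp bt k v ∈ vs A := by
    intro k v hv
    unfold TQE_x
    split_ifs
    · exact (hbt v hv).1
    · exact (htp v hv).1
  have hx1 : ∀ k v, v ≠ (p 0).1 → (TQE_x tp bt k v).1 = v := by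
    intro k v hv
    unfold TQE_x
    split_ifs
    · exact (hP.f v hv).2
    · exact (hP.f v hv).1
  have hc1 : ∀ k v, v ≠ (p 0).1 → TQE_k Z k v ≠ 2 → ∀ i ≤ m, TQE_x tp bt k v ≠ p i := by
    intro k v hv hk i hi
    rcases TQE_fin3 k with rfl | rfl | rfl
    · exact (htp v hv).2 i hi
    · have hvZ : v ∉ Z := by
        intro hvZ
        exact hk (by simp [TQE_k, hvZ])
      have := (hP.i v hv hvZ)
      show bt v ≠ p i
      rw [this.1]
      exact this.2.2 i
    · exact (htp v hv).2 i hi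
  have hc2 : ∀ k v, v ≠ (p 0).1 → TQE_k Z k v = 2 →
      ∀ i, m ≤ i → i ≤ 2 * m → TQE_x tp bt k v ≠ p i := by
    intro k v hv hk i hi hi2
    rcases TQE_fin3 k with rfl | rfl | rfl
    · exact absurd hk (by simp [TQE_k])
    · exact (hbt v hv).2 i hi hi2
    · have hvZ : v ∉ Z := by
        intro hvZ
        simp [TQE_k, hvZ] at hk
      exact (hP.i v hv hvZ).2.2 i
  have himg : ∀ k v, v ≠ (p 0).1 →
      (TQE_E L R U (TQE_k Z k v) (TQE_x tp bt k v)).image Prod.fst =
        {v, (![T1 R tp, T2 Z L U bt, T3 Z L U tp] : Fin 3 → V → V) k v} := by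
    intro k v hv
    obtain ⟨f1, f2⟩ := hP.f v hv
    rcases TQE_fin3 k with rfl | rfl | rfl
    · show (({tp v, R (tp v)} : Finset (V × ZMod 2))).image Prod.fst = {v, (R (tp v)).1}
      rw [image_insert, image_singleton, f1]
    · by_cases hvZ : v ∈ Z
      · have e1 : TQE_E L R U (TQE_k Z 1 v) (TQE_x tp bt 1 v) = {U (bt v), bt v} := by
          simp [TQE_E, TQE_k, TQE_x, hvZ]
        have e2 : (![T1 R tp, T2 Z L U bt, T3 Z L U tp] : Fin 3 → V → V) 1 v =
            (U (bt v)).1 := by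
          simp [T2, hvZ]
        rw [e1, e2, image_insert, image_singleton, f2, Finset.pair_comm]
      · have e1 : TQE_E L R U (TQE_k Z 1 v) (TQE_x tp bt 1 v) = {bt v, L (bt v)} := by
          simp [TQE_E, TQE_k, TQE_x, hvZ]
        have e2 : (![T1 R tp, T2 Z L U bt, T3 Z L U tp] : Fin 3 → V → V) 1 v =
            (L (bt v)).1 := by
          simp [T2, hvZ]
        rw [e1, e2, image_insert, image_singleton, f2]
    · by_cases hvZ : v ∈ Z
      · have e1 : TQE_E L R U (TQE_k Z 2 v) (TQE_x tp bt 2 v) = {tp v, L (tp v)} := by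
          simp [TQE_E, TQE_k, TQE_x, hvZ]
        have e2 : (![T1 R tp, T2 Z L U bt, T3 Z L U tp] : Fin 3 → V → V) 2 v =
            (L (tp v)).1 := by
          simp [T3, hvZ]
        rw [e1, e2, image_insert, image_singleton, f1]
      · have e1 : TQE_E L R U (TQE_k Z 2 v) (TQE_x tp bt 2 v) = {U (tp v), tp v} := by
          simp [TQE_E, TQE_k, TQE_x, hvZ]
        have e2 : (![T1 R tp, T2 Z L U bt, T3 Z L U tp] : Fin 3 → V → V) 2 v =
            (U (tp v)).1 := by
          simp [T3, hvZ]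
        rw [e1, e2, image_insert, image_singleton, f1, Finset.pair_comm]
  have hE : ∀ k v, v ≠ (p 0).1 →
      TQE_E L R U (TQE_k Z k v) (TQE_x tp bt k v) ∈ edges A ∧
      ∀ i < m, TQE_E L R U (TQE_k Z k v) (TQE_x tp bt k v) ≠ {p i, p (i + 1)} :=
    fun k v hv => TQE_edge hS _ _ (hx k v hv) (hc1 k v hv) (hc2 k v hv)
  refine ⟨fun k v hv => ?_, fun k k' v v' hv hv' h => ?_⟩
  · rw [← himg k v hv]
    exact (led4 _ (edges_mono hH.sub (hE k v hv).1)).2
  · rw [← himg k v hv, ← himg k' v' hv'] at h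
    have h6 := h4 V F w m p A hF hw hD hG hH _ (hE k v hv).1 _ (hE k' v' hv').1 (hE k v hv).2
      (hE k' v' hv').2 h
    obtain ⟨h7, h8⟩ := TQE_dist h5 hS _ _ _ _ (hx k v hv) (hx k' v' hv') (hc1 k v hv)
      (hc2 k v hv) (hc1 k' v' hv') (hc2 k' v' hv') h6
    have h9 : v = v' := by
      rw [← hx1 k v hv, ← hx1 k' v' hv', h8]
    subst h9
    exact ⟨TQE_k_inj Z k k' v h7, rfl⟩

end Pool.Agent.helper57.PP
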