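import Pool.Agent.helper57.PP.Spec

/-! Row pp:FINAL. -/

set_option autoImplicit false

namespace Pool.Agent.helper57.PP

open Finset

theorem FINAL_pair {V : Type} [DecidableEq V] {a b v w : V} (hab : a ≠ b)
    (h : ({a, b} : Finset V) = {v, w}) : s(a, b) = s(v, w) := by
  have ha : a ∈ ({v, w} : Finset V) := by rw [← h]; simp
  have hb : b ∈ ({v, w} : Finset V) := by rw [← h]; simp
  rw [mem_insert, mem_singleton] at ha hb
  rcases ha with rfl | rfl
  · rcases hb with rfl | rfl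
    · exact absurd rfl hab
    · rfl
  · rcases hb with rfl | rfl
    · exact Sym2.eq_swap
    · exact absurd rfl hab

theorem FINAL_pair' {V : Type} [DecidableEq V] {a b v w : V}
    (h : s(a, b) = s(v, w)) : ({a, b} : Finset V) = {v, w} := by
  rw [Sym2.eq_iff] at h
  rcases h with ⟨rfl, rfl⟩ | ⟨rfl, rfl⟩
  · rfl
  · exact Finset.pair_comm _ _

theorem FINAL_cover {V : Type} [Fintype V] [DecidableEq V] (F : Finset (Finset V)) (s : V)
    (T : Fin 3 → V → V) (hcard : (edges F).card = 3 * (Fintype.card V - 1))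
    (h1 : ∀ (k : Fin 3) (v : V), v ≠ s → {v, T k v} ∈ edges F)
    (h2 : ∀ (k k' : Fin 3) (v v' : V), v ≠ s → v' ≠ s →
      ({v, T k v} : Finset V) = {v', T k' v'} → k = k' ∧ v = v') :
    ∀ x ∈ edges F, ∃ (k : Fin 3) (v : V), v ≠ s ∧ x = {v, T k v} := by
  have hI : ((univ : Finset (Fin 3)) ×ˢ (univ.erase s : Finset V)).image
      (fun z => ({z.2, T z.1 z.2} : Finset V)) = edges F := by
    apply Finset.eq_of_subset_of_card_le
    · intro x hx
      obtain ⟨⟨k, v⟩, hkv, rfl⟩ := mem_image.1 hx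
      rw [mem_product, mem_erase] at hkv
      exact h1 k v hkv.2.1
    · rw [card_image_of_injOn, card_product, card_univ, Fintype.card_fin,
        card_erase_of_mem (mem_univ s), card_univ, hcard]
      rintro ⟨k, v⟩ hkv ⟨k', v'⟩ hkv' h
      rw [mem_coe, mem_product, mem_erase] at hkv hkv'
      obtain ⟨h3, h4⟩ := h2 k k' v v' hkv.2.1 hkv'.2.1 h
      rw [h3, h4]
  intro x hx
  rw [← hI] at hx
  obtain ⟨⟨k, v⟩, hkv, rfl⟩ := mem_image.1 hx
  rw [mem_product, mem_erase] at hkv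
  exact ⟨k, v, hkv.2.1, rfl⟩

theorem FINAL (h1 : DB_stmt) (h2 : CFR_stmt) (h3 : SWP_stmt) (h4 : PROJ_stmt) (h5 : TQD_stmt)
    (h6 : TQE_stmt) (h7 : TQR_stmt) (h8 : ORD_stmt) (h9 : CNT_stmt) : FINAL_stmt := by
  intro V _ _ F hF hconn hcard
  rcases F.eq_empty_or_nonempty with h0 | hne
  · subst h0
    have hV : Fintype.card V = 1 := by
      have : edges (∅ : Finset (Finset V)) = ∅ := rfl
      rw [this, card_empty] at hcard
      omega
    have hz : 3 * (Fintype.card V - 1) = 0 := by rw [hV]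
    have hE : IsEmpty (Fin (3 * (Fintype.card V - 1))) := by
      rw [hz]
      exact Fin.isEmpty
    refine ⟨fun j => (hE.false j).elim, fun j => (hE.false j).elim, fun z => ?_,
      fun j => (hE.false j).elim⟩
    constructor
    · rintro ⟨j, -⟩
      exact (hE.false j).elim
    · intro hzz
      exfalso
      induction z using Sym2.ind with
      | _ a b =>
        rw [SimpleGraph.mem_edgeSet] at hzz
        have := hzz.2
        have h0 : edges (∅ : Finset (Finset V)) = ∅ := rfl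
        rw [h0] at this
        exact notMem_empty _ this
  obtain ⟨w, hw, hD⟩ := h1 V F hF hconn hne hcard
  obtain ⟨m, p, A, hG, hH, hconf⟩ := h2 (V × ZMod 2) (lift F w) sg hD
  obtain ⟨L, R, U, ρ, tm, c1, c0, hS⟩ := h3 (V × ZMod 2) (lift F w) sg m p A hD hG hH hconf
  obtain ⟨Z, ix, tp, bt, hP⟩ := h4 V F w m p A hD hG hH
  have hTQ := h5 V F w m p A L R U ρ tm c1 c0 Z ix tp bt hD hG hH hS hP
  obtain ⟨hE1, hE2⟩ := h6 V F w m p A L R U ρ tm c1 c0 Z ix tp bt hF hw hD hG hH hS hP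
  have hR := h7 V (p 0).1 Z _ _ _ _ _ _ _ hTQ
  obtain ⟨e, he1, he2, he3⟩ := h8 V (p 0).1 ![T1 R tp, T2 Z L U bt, T3 Z L U tp]
    (phi m Z ix tp tm c1 c0) hTQ.inj
    (fun k k' v v' hv hv' h => hE2 k k' v v' hv hv' (FINAL_pair' h)) hR
  refine ⟨e, he1, fun z => ?_, he3⟩
  rw [he2]
  constructor
  · rintro ⟨k, v, hv, rfl⟩
    rw [SimpleGraph.mem_edgeSet]
    exact ⟨edges_ne (hE1 k v hv), hE1 k v hv⟩
  · intro hz
    induction z using Sym2.ind with
    | _ a b =>
      rw [SimpleGraph.mem_edgeSet] at hz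
      obtain ⟨k, v, hv, hx⟩ := FINAL_cover F (p 0).1 _ (h9 V F hF hcard) hE1 hE2 {a, b} hz.2
      exact ⟨k, v, hv, FINAL_pair hz.1 hx⟩

end Pool.Agent.helper57.PP
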